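import Pool.Agent.Helper8.TB.St

/-!
# Project TB: the body is not a ball
-/

set_option autoImplicit false

namespace Pool.Agent.Helper99.TB

open Pool.Helper8.TB MeasureTheory

private theorem inner_X_self {n : ℕ} (q p : ℝ → ℝ) {e ν : W n} (hν : ‖ν‖ = 1) :
    (inner ℝ (X q p e ν) ν : ℝ) = hh q p e ν := by
  unfold X hh
  rw [inner_add_left, real_inner_smul_left, real_inner_smul_left, real_inner_self_eq_norm_sq, hν,
    real_inner_comm ν e]
  ring

/-- the support function of a ball -/
private theorem hh_ball (hSup : StSup) {n m : ℕ} {τ ε : ℝ} {q q1 p r : ℝ → ℝ} (hD : Dat m τ ε q q1 p r)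
    {e : W n} (he : ‖e‖ = 1) {c : W n} {ρ : ℝ} (hB : Bd q p e = Metric.closedBall c ρ) {ν : W n} (hν : ‖ν‖ = 1) :
    hh q p e ν = inner ℝ c ν + ρ := by
  have hX : X q p e ν ∈ Metric.closedBall c ρ := by
    rw [← hB]
    exact fun ω hω => (hSup n m τ ε q q1 p r hD e ν ω he hν hω).1
  rw [Metric.mem_closedBall, dist_eq_norm] at hX
  have hρ : 0 ≤ ρ := (norm_nonneg _).trans hX
  refine le_antisymm ?_ ?_
  · rw [← inner_X_self q p hν]
    have h1 : (inner ℝ (X q p e ν - c) ν : ℝ) ≤ ρ :=
      (real_inner_le_norm _ _).trans (by rw [hν, mul_one]; exact hX)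
    rw [inner_sub_left] at h1
    linarith
  · have h2 : c + ρ • ν ∈ Bd q p e := by
      rw [hB, Metric.mem_closedBall, dist_eq_norm, add_sub_cancel_left, norm_smul, hν, mul_one, Real.norm_eq_abs,
        abs_of_nonneg hρ]
    have h3 := h2 ν hν
    rw [inner_add_left, real_inner_smul_left, real_inner_self_eq_norm_sq, hν] at h3
    linarith

private theorem ex_perp {m : ℕ} (hm : 1 ≤ m) {e : W (m + 1)} (he : ‖e‖ = 1) :
    ∃ v : W (m + 1), ‖v‖ = 1 ∧ (inner ℝ v e : ℝ) = 0 := by
  haveI : Fact (Module.finrank ℝ (W (m + 1)) = m + 1) := ⟨finrank_euclideanSpace_fin⟩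
  have he0 : e ≠ 0 := by
    intro h
    rw [h, norm_zero] at he
    exact zero_ne_one he
  have h1 := Submodule.finrank_orthogonal_span_singleton (𝕜 := ℝ) (n := m) he0
  haveI : Nontrivial ((Submodule.span ℝ {e})ᗮ : Submodule ℝ (W (m + 1))) := by
    refine Module.nontrivial_of_finrank_pos (R := ℝ) ?_
    rw [h1]
    omega
  obtain ⟨w, hw⟩ := exists_ne (0 : ((Submodule.span ℝ {e})ᗮ : Submodule ℝ (W (m + 1))))
  have hw0 : (w : W (m + 1)) ≠ 0 := fun h => hw (Subtype.ext h)
  have hn : ‖(w : W (m + 1))‖ ≠ 0 := norm_ne_zero_iff.2 hw0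
  refine ⟨(‖(w : W (m + 1))‖)⁻¹ • (w : W (m + 1)), ?_, ?_⟩
  · rw [norm_smul, norm_inv, norm_norm, inv_mul_cancel₀ hn]
  · have h2 := (Submodule.mem_orthogonal_singleton_iff_inner_left).1 w.2
    rw [real_inner_smul_left, h2, mul_zero]

/-- **NB**: the body is not a ball -/
theorem hNB (hSup : StSup) : StNB := by
  intro m τ ε q q1 p r hm hτ hτ1 hD e he
  rintro ⟨c, ρ, hB⟩
  obtain ⟨v, hv, hve⟩ := ex_perp hm he
  have hev : (inner ℝ e v : ℝ) = 0 := by rw [real_inner_comm]; exact hve
  -- the formula in the plane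
  have key : ∀ (t s : ℝ), t ^ 2 + s ^ 2 = 1 → q t + t * p t = t * inner ℝ c e + s * inner ℝ c v + ρ := by
    intro t s hts
    have hin : (inner ℝ (t • e + s • v) e : ℝ) = t := by
      rw [inner_add_left, real_inner_smul_left, real_inner_smul_left, real_inner_self_eq_norm_sq, he, hve]
      ring
    have hn : ‖t • e + s • v‖ = 1 := by
      have h1 : ‖t • e + s • v‖ ^ 2 = 1 := by
        rw [← real_inner_self_eq_norm_sq, inner_add_left, inner_add_right, inner_add_right,
          real_inner_smul_left, real_inner_smul_left, real_inner_smul_left, real_inner_smul_left,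
          real_inner_smul_right, real_inner_smul_right, real_inner_smul_right, real_inner_smul_right,
          real_inner_self_eq_norm_sq, real_inner_self_eq_norm_sq, he, hv, hve, hev]
        linear_combination hts
      have h2 := norm_nonneg (t • e + s • v)
      nlinarith
    have h3 := hh_ball hSup hD he hB hn
    unfold hh at h3
    rw [hin, inner_add_right, real_inner_smul_right, real_inner_smul_right] at h3
    exact h3
  have hq0 : q 0 = 1 := hD.flq 0 (by rw [abs_zero]; exact hτ.le)
  have k1 := key 0 1 (by norm_num)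
  have k2 := key 0 (-1) (by norm_num)
  have hρ : ρ = 1 := by linarith
  have hcv : (inner ℝ c v : ℝ) = 0 := by linarith
  have key2 : ∀ t : ℝ, t ^ 2 ≤ 1 → q t + t * p t = t * inner ℝ c e + 1 := by
    intro t ht
    have h := key t (Real.sqrt (1 - t ^ 2)) (by rw [Real.sq_sqrt (by linarith)]; ring)
    rw [hcv, hρ] at h
    linarith
  have hce : (inner ℝ c e : ℝ) = 0 := by
    have h := key2 τ (by nlinarith)
    have ha : |τ| ≤ τ := by rw [abs_of_pos hτ]
    rw [hD.flq τ ha, hD.flp τ ha] at h
    have h2 : τ * inner ℝ c e = 0 := by linarith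
    exact (mul_eq_zero.1 h2).resolve_left hτ.ne'
  have key3 : ∀ t : ℝ, t ^ 2 ≤ 1 → q t + t * p t = 1 := by
    intro t ht
    have h := key2 t ht
    rw [hce, mul_zero, zero_add] at h
    exact h
  have hp0 : ∀ t ∈ Set.Ioo (-1 : ℝ) 1, p t = 0 := by
    intro t ht
    have hd : HasDerivAt (fun t => q t + t * p t) (q1 t + (1 * p t + t * r t)) t :=
      (hD.hq t).add ((hasDerivAt_id t).mul (hD.hp t))
    have hc : HasDerivAt (fun t => q t + t * p t) 0 t := by
      refine (hasDerivAt_const t (1 : ℝ)).congr_of_eventuallyEq ?_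
      filter_upwards [isOpen_Ioo.mem_nhds ht] with x hx
      exact key3 x (by nlinarith [hx.1, hx.2])
    have he := hd.unique hc
    have h2 := hD.hr t
    linarith
  have hq1 : Set.EqOn q (fun _ => (1 : ℝ)) (Set.Ioo (-1) 1) := by
    intro t ht
    have h := key3 t (by nlinarith [ht.1, ht.2])
    rw [hp0 t ht, mul_zero, add_zero] at h
    exact h
  have hqc : Continuous q := continuous_iff_continuousAt.2 fun t => (hD.hq t).continuousAt
  have hcl := hq1.closure hqc continuous_const
  rw [closure_Ioo (by norm_num)] at hcl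
  obtain ⟨t, ht, hne⟩ := hD.nt
  exact hne (hcl ⟨by nlinarith, by nlinarith⟩)

end Pool.Agent.Helper99.TB
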